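import Pool.Agent.W2helper5.QD.Stm

set_option autoImplicit false

namespace Pool.Agent.W2helper5.QD

open MeasureTheory Set Pool.V11275.Quad Pool.Agent.Helper717.Hull1 Pool.Agent.Helper717.Hull2

theorem PSYM : P_PSYM := by
  intro hB hR hS m hm hodd θ
  obtain ⟨hb, -, -, -, -, hrot, hrfl⟩ := hR m hm
  obtain ⟨-, -, s1, s2⟩ := hS hB (P m) hb
  obtain ⟨-, -, -, b4, -, b6⟩ := hB (P m) hb
  have hm0 : (0 : ℝ) < m := by exact_mod_cast (by omega : 0 < m)
  have hπ : Real.pi = m * al m := by unfold al; field_simp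
  have per1 : Function.Periodic (hh (P m)) (2 * al m) := by
    intro t
    have := (s1 (2 * al m) t).1
    rwa [hrot] at this
  have per2 : Function.Periodic (G (P m)) (2 * al m) := by
    intro t
    have := (s1 (2 * al m) t).2
    rwa [hrot] at this
  rw [hrfl] at s2
  refine ⟨(s2 θ).1, ?_, (s2 θ).2, ?_⟩
  · obtain ⟨i, hi⟩ : ∃ i, m = 2 * i + 1 := ⟨m / 2, by omega⟩
    have h1 := b4 θ
    have h2 := (per1.nat_mul i) (θ + al m)
    have e1 : θ + al m + (i : ℝ) * (2 * al m) = θ + Real.pi := by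
      rw [hπ]
      have : (m : ℝ) = 2 * i + 1 := by exact_mod_cast hi
      rw [this]
      ring
    rw [e1] at h2
    rw [← h2, h1]
  · rcases Nat.lt_or_ge (m % 4) 2 with h4 | h4
    · obtain ⟨i, hi⟩ : ∃ i, m = 4 * i + 1 := ⟨m / 4, by omega⟩
      have h1 := b6 θ
      have h2 := (per2.nat_mul i) (θ + al m / 2)
      have e1 : θ + al m / 2 + (i : ℝ) * (2 * al m) = θ + Real.pi / 2 := by
        rw [hπ]
        have : (m : ℝ) = 4 * i + 1 := by exact_mod_cast hi
        rw [this]
        ring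
      rw [e1] at h2
      rw [← h2, h1]
    · obtain ⟨i, hi⟩ : ∃ i, m = 4 * i + 3 := ⟨m / 4, by omega⟩
      have h1 := b6 (θ + al m / 2)
      have h2 := (per2.nat_mul (i + 1)) θ
      have e1 : θ + ((i + 1 : ℕ) : ℝ) * (2 * al m) = θ + al m / 2 + Real.pi / 2 := by
        rw [hπ]
        have : (m : ℝ) = 4 * i + 3 := by exact_mod_cast hi
        rw [this]
        push_cast
        ring
      rw [e1] at h2
      linarith

end Pool.Agent.W2helper5.QD
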