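import Pool.Agent.W2helper5.QD.Stm

set_option autoImplicit false

namespace Pool.Agent.W2helper5.QD

open MeasureTheory Set Pool.V11275.Quad Pool.Agent.Helper717.Hull1 Pool.Agent.Helper717.Hull2

lemma t2_poly1 (q : ℝ) (h0 : 0 < q) (h1 : q ≤ 0.0956) :
    (1 - 2 * q + q ^ 2 / 2) ^ 2 + 1.334 * q ^ 2 * (1 - q) < (1 - q) ^ 2 * (1 - q) := by
  nlinarith [mul_pos h0 h0, mul_pos (mul_pos h0 h0) h0, mul_nonneg h0.le (sub_nonneg.2 h1),
    mul_nonneg (mul_pos h0 h0).le (sub_nonneg.2 h1),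
    mul_nonneg (mul_pos (mul_pos h0 h0) h0).le (sub_nonneg.2 h1)]

lemma t2_poly2 (q : ℝ) (h0 : 0 < q) (h1 : q ≤ 0.0956) :
    (1 - 2 * q + q ^ 2 / 2) ^ 2 * (4 - 7 * q) ^ 2 +
      1.334 * q ^ 2 * ((1 - q) * (1 - q ^ 2 / 6)) * (4 - 7 * q) ^ 2 <
      (4 * (1 - q) * (1 - 2 * q)) ^ 2 * ((1 - q) * (1 - q ^ 2 / 6)) := by
  have h2 : 0 < q * (8 - 73.02 * q) := mul_pos h0 (by linarith)
  have h3 : 0 < q ^ 3 * (222 - 293 * q) := mul_pos (by positivity) (by linarith)
  have h4 : 0 < q ^ 5 * (164 - 33 * q - q * q) := mul_pos (by positivity) (by nlinarith)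
  have e2 := pow_pos h0 2
  have e3 := pow_pos h0 3
  have e4 := pow_pos h0 4
  have e5 := pow_pos h0 5
  have e6 := pow_pos h0 6
  have e7 := pow_pos h0 7
  linarith

theorem T2 : P_T2 := by
  intro hT1 α hα hα5
  obtain ⟨hx, hxi0, hxi⟩ := hT1 α hα hα5
  have hπ := Real.pi_pos
  set C := Real.cos (α / 2) with hC
  set S := Real.sin (α / 2) with hS
  have hC0 : 0 < C := Real.cos_pos_of_mem_Ioo ⟨by linarith, by linarith⟩
  have hS0 : 0 < S := Real.sin_pos_of_pos_of_lt_pi (by linarith) (by linarith)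
  have hCS : C ^ 2 + S ^ 2 = 1 := Real.cos_sq_add_sin_sq _
  have hcα : Real.cos α = 1 - 2 * S ^ 2 := by
    have : α = 2 * (α / 2) := by ring
    rw [this, Real.cos_two_mul]
    have h := hCS
    rw [← hC]; linarith
  have hsα : Real.sin α = 2 * S * C := by
    have : α = 2 * (α / 2) := by ring
    rw [this, Real.sin_two_mul]
  set q := S ^ 2 with hq
  have hq0 : 0 < q := by positivity
  have hCq : C ^ 2 = 1 - q := by linarith
  have hq1 : q ≤ 0.0955 := by
    have h1 : Real.cos (Real.pi / 5) ≤ Real.cos α :=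
      Real.cos_le_cos_of_nonneg_of_le_pi hα.le (by linarith) hα5
    rw [Real.cos_pi_div_five, hcα] at h1
    have h2 : (2.236 : ℝ) ≤ Real.sqrt 5 := by
      apply Real.le_sqrt_of_sq_le; norm_num
    linarith
  have hS1 : S ≤ 0.30919 := by
    by_contra h
    push Not at h
    nlinarith
  have hC1 : C ≤ 1 := Real.cos_le_one _
  rw [hcα] at hxi
  have hxi' : xi α ≤ q / 2 * S := by
    have : (1 - (1 - 2 * q)) / 4 * S = q / 2 * S := by ring
    linarith
  have hxiS : xi α * S ≤ q ^ 2 / 2 := by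
    calc xi α * S ≤ q / 2 * S * S := mul_le_mul_of_nonneg_right hxi' hS0.le
      _ = q ^ 2 / 2 := by rw [hq]; ring
  set N := Real.cos α + xi α * S with hN
  have hN0 : 0 < N := by
    have := mul_pos hxi0 hS0
    rw [hN, hcα]; linarith
  have hN1 : N ≤ 1 - 2 * q + q ^ 2 / 2 := by rw [hN, hcα]; linarith
  have hN2 : N ^ 2 ≤ (1 - 2 * q + q ^ 2 / 2) ^ 2 := pow_le_pow_left₀ hN0.le hN1 2
  have hb : ∀ x : ℝ, 0 ≤ x → x ≤ q → (x + xi α) ^ 2 ≤ 1.334 * q ^ 2 := by
    intro x h0 h1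
    have h2 : x + xi α ≤ q * (1.1546) := by nlinarith
    have h3 : 0 ≤ x + xi α := by linarith
    calc (x + xi α) ^ 2 ≤ (q * 1.1546) ^ 2 := pow_le_pow_left₀ h3 h2 2
      _ ≤ 1.334 * q ^ 2 := by nlinarith
  have h1q : 0 < 1 - q := by linarith
  constructor
  · have hy : y0 α ^ 2 = N ^ 2 / (1 - q) := by
      unfold y0
      rw [div_pow, ← hC, hCq]
    have h1 := hb ((1 - Real.cos α) / 2) (by rw [hcα]; linarith) (by rw [hcα]; linarith)
    have h2 : ((1 + Real.cos α) / 2) ^ 2 = (1 - q) ^ 2 := by rw [hcα]; ring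
    rw [hy, h2]
    have h3 := t2_poly1 q hq0 (by linarith)
    have h4 : N ^ 2 / (1 - q) ≤ (1 - 2 * q + q ^ 2 / 2) ^ 2 / (1 - q) :=
      div_le_div_of_nonneg_right hN2 h1q.le
    have h5 : (1 - 2 * q + q ^ 2 / 2) ^ 2 / (1 - q) < (1 - q) ^ 2 - 1.334 * q ^ 2 := by
      rw [div_lt_iff₀ h1q]
      nlinarith
    linarith
  · intro θ hθ0 hθ1
    obtain ⟨a1, a2, -, -, -⟩ := hx θ hθ0.le (by linarith)
    have hct : 0 < Real.cos θ := Real.cos_pos_of_mem_Ioo ⟨by linarith, by linarith⟩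
    have hst : 0 < Real.sin θ := Real.sin_pos_of_pos_of_lt_pi hθ0 (by linarith)
    -- 2 C sin θ ≤ S cos θ
    have hkey : 2 * (C * Real.sin θ) ≤ S * Real.cos θ := by
      have h1 : Real.sin θ ≤ Real.sin (α / 2 - θ) :=
        Real.sin_le_sin_of_le_of_le_pi_div_two (by linarith) (by linarith) (by linarith)
      rw [Real.sin_sub] at h1
      have h2 : C * Real.sin θ ≤ Real.sin θ := by nlinarith
      rw [← hC, ← hS] at h1
      linarith
    -- bound for kap
    have hcad : Real.cos (α - θ) = Real.cos α * Real.cos θ + Real.sin α * Real.sin θ :=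
      Real.cos_sub _ _
    have hcos0 : 0 < Real.cos α := by rw [hcα]; linarith
    have hsin1 : Real.sin α * Real.sin θ ≤ q * Real.cos θ := by
      rw [hsα]
      have : 2 * S * C * Real.sin θ = S * (2 * (C * Real.sin θ)) := by ring
      rw [this]
      calc S * (2 * (C * Real.sin θ)) ≤ S * (S * Real.cos θ) :=
            mul_le_mul_of_nonneg_left hkey hS0.le
        _ = q * Real.cos θ := by rw [hq]; ring
    have hsin0 : 0 < Real.sin α * Real.sin θ := by
      rw [hsα]; positivity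
    have hcad0 : 0 < Real.cos (α - θ) := by rw [hcad]; positivity
    have hkap2 : (1 - 2 * q) / (1 - q) ≤ Real.cos α * Real.cos θ / Real.cos (α - θ) := by
      rw [div_le_div_iff₀ h1q hcad0, hcad, hcα]
      nlinarith
    have hkap : (2 - 4 * q) / (2 - 3 * q) ≤ kap α θ := by
      unfold kap
      apply Real.le_sqrt_of_sq_le
      refine le_trans ?_ hkap2
      have h23 : 0 < 2 - 3 * q := by linarith
      rw [div_pow, div_le_div_iff₀ (by positivity) h1q]
      nlinarith [mul_pos hq0 hq0, mul_pos (mul_pos hq0 hq0) hq0]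
    have hk0 : 0 < kap α θ := by
      refine lt_of_lt_of_le ?_ hkap
      apply div_pos <;> linarith
    have hcx : Real.cos α + x1 α θ = kap α θ * (2 * (1 - q)) / (1 + kap α θ) := by
      unfold x1
      have : (1 + kap α θ) ≠ 0 := by linarith
      field_simp
      rw [hcα]; ring
    have hlow : 4 * (1 - q) * (1 - 2 * q) / (4 - 7 * q) ≤ Real.cos α + x1 α θ := by
      rw [hcx, div_le_div_iff₀ (by linarith) (by linarith)]
      have h23 : 0 < 2 - 3 * q := by linarith
      rw [div_le_iff₀ h23] at hkap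
      nlinarith [mul_nonneg h1q.le (sub_nonneg.2 hkap)]
    have hlow0 : 0 ≤ 4 * (1 - q) * (1 - 2 * q) / (4 - 7 * q) := by
      apply div_nonneg _ (by linarith)
      exact mul_nonneg (by linarith) (by linarith)
    have hlow2 : (4 * (1 - q) * (1 - 2 * q) / (4 - 7 * q)) ^ 2 ≤ (Real.cos α + x1 α θ) ^ 2 :=
      pow_le_pow_left₀ hlow0 hlow 2
    -- bound for ZZ
    set A := Real.cos (α / 2 - θ) with hA
    set B := Real.cos (α / 2 + θ) with hB
    have hA1 : A = C * Real.cos θ + S * Real.sin θ := Real.cos_sub _ _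
    have hB1 : B = C * Real.cos θ - S * Real.sin θ := Real.cos_add _ _
    have hA0 : 0 < A := by rw [hA1]; positivity
    have hSs : 2 * (C * (S * Real.sin θ)) ≤ q * Real.cos θ := by
      calc 2 * (C * (S * Real.sin θ)) = S * (2 * (C * Real.sin θ)) := by ring
        _ ≤ S * (S * Real.cos θ) := mul_le_mul_of_nonneg_left hkey hS0.le
        _ = q * Real.cos θ := by rw [hq]; ring
    have hC09 : 0.95 ≤ C := by
      by_contra h
      push Not at h
      nlinarith
    have hSs2 : S * Real.sin θ ≤ (q / 1.9) * Real.cos θ := by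
      have h1 : 0 ≤ S * Real.sin θ := by positivity
      have h2 : 1.9 * (S * Real.sin θ) ≤ q * Real.cos θ := by nlinarith
      have h3 : q / 1.9 * Real.cos θ = (q * Real.cos θ) / 1.9 := by ring
      rw [h3, le_div_iff₀ (by norm_num)]
      linarith
    have hB0 : 0 < B := by
      rw [hB1]
      nlinarith
    have hAB : (C * Real.cos θ * (1 - q ^ 2 / 3)) ^ 2 ≤ A * B := by
      rw [hA1, hB1]
      have h1 : (C * Real.cos θ + S * Real.sin θ) * (C * Real.cos θ - S * Real.sin θ) =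
          C ^ 2 * Real.cos θ ^ 2 - (S * Real.sin θ) ^ 2 := by ring
      rw [h1]
      have h2 : (S * Real.sin θ) ^ 2 ≤ ((q / 1.9) * Real.cos θ) ^ 2 :=
        pow_le_pow_left₀ (by positivity) hSs2 2
      have h3 : (C * Real.cos θ * (1 - q ^ 2 / 3)) ^ 2 =
          Real.cos θ ^ 2 * (C ^ 2 * (1 - q ^ 2 / 3) ^ 2) := by ring
      have h4 : C ^ 2 * (1 - q ^ 2 / 3) ^ 2 + (q / 1.9) ^ 2 ≤ C ^ 2 := by
        rw [hCq]
        have hq2 : q ^ 2 ≤ 0.0092 := by nlinarith
        have h5 : (1 - q ^ 2 / 3) ^ 2 ≤ 1 - q ^ 2 * (2/3 - 0.01) := by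
          nlinarith [mul_nonneg (sq_nonneg q) (sub_nonneg.2 hq2)]
        have h6 : (q / 1.9) ^ 2 ≤ q ^ 2 * 0.278 := by
          have : (q / 1.9) ^ 2 = q ^ 2 / 3.61 := by rw [div_pow]; norm_num
          rw [this, div_le_iff₀ (by norm_num)]
          nlinarith [sq_nonneg q]
        nlinarith [mul_le_mul_of_nonneg_left h5 h1q.le]
      have h7 := mul_le_mul_of_nonneg_left h4 (sq_nonneg (Real.cos θ))
      rw [h3]
      nlinarith
    have hsq : (Real.sqrt A + Real.sqrt B) ^ 2 = A + B + 2 * Real.sqrt (A * B) := by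
      rw [Real.sqrt_mul hA0.le, add_sq, Real.sq_sqrt hA0.le, Real.sq_sqrt hB0.le]; ring
    have hq3 : 0 < 1 - q ^ 2 / 3 := by nlinarith
    have hsqAB : C * Real.cos θ * (1 - q ^ 2 / 3) ≤ Real.sqrt (A * B) :=
      Real.le_sqrt_of_sq_le hAB
    have hden : 4 * (C * Real.cos θ) * (1 - q ^ 2 / 6) ≤ (Real.sqrt A + Real.sqrt B) ^ 2 := by
      rw [hsq]
      have : A + B = 2 * (C * Real.cos θ) := by rw [hA1, hB1]; ring
      rw [this]
      linarith
    have hq6 : 0 < 1 - q ^ 2 / 6 := by nlinarith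
    have hden0 : 0 < 4 * (C * Real.cos θ) * (1 - q ^ 2 / 6) := by positivity
    have hZ : ZZ α θ * Real.cos θ / C ≤ N ^ 2 / ((1 - q) * (1 - q ^ 2 / 6)) := by
      have h1 : ZZ α θ ≤ 4 * N ^ 2 / (4 * (C * Real.cos θ) * (1 - q ^ 2 / 6)) := by
        unfold ZZ
        exact div_le_div_of_nonneg_left (by positivity) hden0 hden
      have h2 : ZZ α θ * Real.cos θ / C ≤
          4 * N ^ 2 / (4 * (C * Real.cos θ) * (1 - q ^ 2 / 6)) * Real.cos θ / C := by
        apply div_le_div_of_nonneg_right _ hC0.le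
        exact mul_le_mul_of_nonneg_right h1 hct.le
      refine h2.trans (le_of_eq ?_)
      rw [← hCq]
      field_simp
    have hZ2 : N ^ 2 / ((1 - q) * (1 - q ^ 2 / 6)) ≤
        (1 - 2 * q + q ^ 2 / 2) ^ 2 / ((1 - q) * (1 - q ^ 2 / 6)) :=
      div_le_div_of_nonneg_right hN2 (by positivity)
    have h3 := hb (x1 α θ) a1.le (by rw [hcα] at a2; linarith)
    have h4 := t2_poly2 q hq0 (by linarith)
    have h47 : 0 < 4 - 7 * q := by linarith
    have h5 : (1 - 2 * q + q ^ 2 / 2) ^ 2 / ((1 - q) * (1 - q ^ 2 / 6)) + 1.334 * q ^ 2 <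
        (4 * (1 - q) * (1 - 2 * q) / (4 - 7 * q)) ^ 2 := by
      rw [div_pow, div_add' _ _ _ (by positivity), div_lt_div_iff₀ (by positivity) (by positivity)]
      nlinarith
    linarith

end Pool.Agent.W2helper5.QD
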