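import Pool.Agent.W2helper5.QD.Stm

set_option autoImplicit false

namespace Pool.Agent.W2helper5.QD

open MeasureTheory Set Pool.V11275.Quad Pool.Agent.Helper717.Hull1 Pool.Agent.Helper717.Hull2

lemma al_pos {m : ℕ} (hm : 3 ≤ m) : 0 < al m := by
  unfold al
  have : (0 : ℝ) < m := by exact_mod_cast (by omega : 0 < m)
  exact div_pos Real.pi_pos this

lemma al_le {m : ℕ} (hm : 5 ≤ m) : al m ≤ Real.pi / 5 := by
  unfold al
  have : (5 : ℝ) ≤ m := by exact_mod_cast hm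
  exact div_le_div_of_nonneg_left Real.pi_pos.le (by norm_num) this

lemma m_al {m : ℕ} (hm : 3 ≤ m) : m * al m = Real.pi := by
  unfold al
  have : (m : ℝ) ≠ 0 := by
    have : (0 : ℝ) < m := by exact_mod_cast (by omega : 0 < m)
    exact this.ne'
  field_simp

theorem main (hBASIC : P_BASIC) (hBIJ : P_BIJ) (hSIM : P_SIM) (hHULL : P_HULL) (hREG : P_REG)
    (hNB : P_NB) (hSYMG : P_SYMG) (hPSYM : P_PSYM) (hCNU : P_CNU) (hCNL : P_CNL) (hT1 : P_T1)
    (hT2 : P_T2) (hBIS : P_BIS) (hTOP : P_TOP) (hNEGT : P_NEGT) (hDEC : P_DEC) (hNEG : P_NEG)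
    (hWV : P_WV) (hBAND : P_BAND) (hUC : P_UC) (hLU : P_LU) (hLUALL : P_LUALL)
    (hCOUNT : P_COUNT) (m : ℕ) (hm5 : 5 ≤ m) (hodd : m % 2 = 1) :
    ∃ ε : ℝ, 0 < ε ∧ ∀ (R : Set E2) (f : E2 → E2) (r : ℝ) (v : Fin m → E2), IsGon m R → 0 < r →
      (∀ x y, dist (f x) (f y) = r * dist x y) → range v = f '' (R.extremePoints ℝ) →
      (∀ k : Fin m, dist (v k) (w m ((k : ℕ) : ℤ)) < ε) →
      {q | IsQuadrisection R q}.encard = m := by
  have hm3 : 3 ≤ m := by omega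
  have hα := al_pos hm3
  have hα5 := al_le hm5
  have hmα := m_al hm3
  obtain ⟨hB, hρ, hn1, hE1, hE2, hR1, hR2⟩ := hREG m hm3
  obtain ⟨B1, B2, B3, B4, B5, B6⟩ := hBASIC (P m) hB
  have hps := hPSYM hBASIC hREG hSYMG m hm3 hodd
  obtain ⟨t0, t1, t2, t3, t4⟩ := hTOP hCNU hCNL hBASIC hREG hSYMG hPSYM hT1 hBIS m hm5 hodd
  have g0 : G (P m) 0 = 0 := by
    have := (hps 0).2.2.1
    rw [neg_zero] at this
    linarith
  have hneg := hNEG hCNU hDEC hBASIC hT1 hT2 m hm5 hodd hB g0 t0 t1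
    (hNEGT hCNU m hm5 hodd hBASIC hREG hT1 t0 t2)
    (hBIS hCNU hCNL hBASIC hREG hSYMG hPSYM hT1 m hm5 hodd)
  -- sign on the whole of (0, α/2)
  have hneg2 : ∀ θ : ℝ, 0 < θ → θ < al m / 2 → G (P m) θ < 0 := by
    intro θ h1 h2
    rcases le_or_gt θ (al m / 4) with h3 | h3
    · exact hneg θ h1 h3
    · have e1 : G (P m) θ = G (P m) (al m / 2 - θ) := by
        have a1 := (hps (-θ)).2.2.2
        have a2 := (hps θ).2.2.1
        have : -θ + al m / 2 = al m / 2 - θ := by ring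
        rw [this] at a1
        linarith
      rw [e1]
      exact hneg _ (by linarith) (by linarith)
  obtain ⟨η1, δ1, hη1, hη1', hδ1, hmono⟩ := hLU hCNU hCNL hWV hDEC hUC hBASIC hREG hT1 hT2 m hm5
    hodd t0 t1 (hBAND hREG hT1 m hm5 hodd t2 t3 t4)
  set δ : ℝ := min δ1 (al m / 8) with hδ
  have hδ0 : 0 < δ := lt_min hδ1 (by linarith)
  have hδs : δ < al m / 2 / 2 := lt_of_le_of_lt (min_le_right _ _) (by linarith)
  have hδ1' : δ ≤ δ1 := min_le_left _ _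
  -- μ by compactness
  obtain ⟨μ, hμ, hμ'⟩ : ∃ μ : ℝ, 0 < μ ∧ ∀ θ, δ ≤ θ → θ ≤ al m / 2 - δ → G (P m) θ ≤ -μ := by
    have hne : (Icc δ (al m / 2 - δ)).Nonempty := ⟨δ, le_rfl, by linarith⟩
    obtain ⟨z, hz, hz'⟩ := isCompact_Icc.exists_isMaxOn hne B5.continuousOn
    refine ⟨- G (P m) z, ?_, ?_⟩
    · have := hneg2 z (by linarith [hz.1]) (by linarith [hz.2])
      linarith
    · intro θ h1 h2
      have := hz' (show θ ∈ Icc δ (al m / 2 - δ) from ⟨h1, h2⟩)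
      simp only [mem_ofPred_eq] at this
      linarith
  obtain ⟨η2, hη2, hη2', huc⟩ := hUC hBASIC hREG m hm3 μ hμ
  set η : ℝ := min η1 η2 with hηdef
  have hη0 : 0 < η := lt_min hη1 hη2
  have hηlt : η < 1 := lt_of_le_of_lt (min_le_left _ _) hη1'
  obtain ⟨ε, hε, hnb⟩ := hNB hREG m hm3 η hη0 hηlt
  refine ⟨ε, hε, ?_⟩
  intro R f r v hG hr hf hv hclose
  obtain ⟨c1, c2⟩ := hHULL m R f r v hG hr hf hv
  have hnear : Near m η (f '' R) := by rw [c1]; exact hnb v hclose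
  rw [← hSIM R f r hr hf, hBIJ hBASIC (f '' R) c2 (-(al m / 2 / 2))]
  have hinj := hLUALL hBASIC hREG hSYMG m hm3 hodd η δ (by
    intro R' hR' hN'
    exact ((hmono η hη0.le (min_le_left _ _) R' hR' hN').injOn).mono
      (Icc_subset_Icc (by linarith) hδ1')) (f '' R) c2 hnear
  have hcount := hCOUNT m (al m / 2) δ μ (G (P m)) (G (f '' R)) (by linarith) hδ0 hδs hμ
    (hBASIC _ c2).2.2.2.2.1 (fun θ => (hps θ).2.2.2) hμ'
    (fun θ => (huc η hη0.le (min_le_right _ _) (f '' R) c2 hnear θ).2) hinj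
  have hper : (m : ℝ) * (al m / 2) = Real.pi / 2 := by
    rw [← mul_div_assoc, hmα]
  rw [hper] at hcount
  exact hcount

end Pool.Agent.W2helper5.QD
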