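import Pool.Agent.V11275.Quad6

/-!
Project QD (helper5): MP_79dd7e_co Q2. Every convex (2n+1)-gon close to the regular one (n ≥ 2)
has exactly 2n+1 quadrisections.  Statements of the pieces; proofs on paper in the docstrings.

Notation: `E2` the plane; `dot`, `rot`, `Body`, `mu R` (Lebesgue measure restricted to `R`),
`M R` (area), `H R a c = area of R ∩ {c ≤ dot a x}`, `App` (area in a quadrant) are those of
`Pool.V11275.Quad` (files Quad1, Quad5, Quad6; read Quad5 first: `cont_quad`, `split`, `H_strict`,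
`H_exists`, `exists_bis`, `pieces` are all there).  α = `al m` = π/m.
-/

set_option autoImplicit false

namespace Pool.Agent.W2helper5.QD

open MeasureTheory Set Pool.V11275.Quad Pool.Agent.Helper717.Hull1 Pool.Agent.Helper717.Hull2

/-- Unit vector of angle `θ`. -/
noncomputable def e (θ : ℝ) : E2 := !₂[Real.cos θ, Real.sin θ]

@[simp] lemma e_zero' (θ : ℝ) : e θ 0 = Real.cos θ := rfl
@[simp] lemma e_one' (θ : ℝ) : e θ 1 = Real.sin θ := rfl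

/-- Cross product. -/
def cr (a b : E2) : ℝ := a 0 * b 1 - a 1 * b 0

lemma cr_e (a b : ℝ) : cr (e a) (e b) = Real.sin (b - a) := by
  simp only [cr, e_zero', e_one', Real.sin_sub]; ring
lemma dot_e (a b : ℝ) : dot (e a) (e b) = Real.cos (b - a) := by
  simp only [dot, e_zero', e_one', Real.cos_sub]; ring
lemma e_ne (θ : ℝ) : e θ ≠ 0 := by
  intro h
  have h0 : Real.cos θ = 0 := by rw [← e_zero', h]; rfl
  have h1 : Real.sin θ = 0 := by rw [← e_one', h]; rfl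
  have := Real.sin_sq_add_cos_sq θ
  rw [h0, h1] at this; norm_num at this
lemma rot_e (θ : ℝ) : rot (e θ) = e (θ + Real.pi / 2) := by
  apply ext2
  · simp [Real.cos_add_pi_div_two]
  · simp [Real.sin_add_pi_div_two]
lemma e_add_pi (θ : ℝ) : e (θ + Real.pi) = - e θ := by
  apply ext2
  · simp [Real.cos_add_pi]
  · simp [Real.sin_add_pi]

/-- Half of the central angle of the regular `m`-gon. -/
noncomputable def al (m : ℕ) : ℝ := Real.pi / m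

/-- Vertices of the regular `m`-gon (indexed by all integers, periodic). -/
noncomputable def w (m : ℕ) (k : ℤ) : E2 := e (2 * k * al m)

/-- The regular `m`-gon. -/
noncomputable def P (m : ℕ) : Set E2 := convexHull ℝ (range (w m))

/-- Signed distance of the area bisector of `R` with normal `e θ`. -/
noncomputable def hh (R : Set E2) (θ : ℝ) : ℝ := Classical.epsilon (fun c => H R (e θ) c = M R / 2)

/-- Defect of the quadrant. -/
noncomputable def G (R : Set E2) (θ : ℝ) : ℝ :=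
  App R (e θ) (e (θ + Real.pi / 2)) (hh R θ) (hh R (θ + Real.pi / 2)) - M R / 4

/-- `R` is between `(1-η) P` and `(1+η) P`. -/
def Near (m : ℕ) (η : ℝ) (R : Set E2) : Prop :=
  (∀ x ∈ P m, (1 - η) • x ∈ R) ∧ (∀ x ∈ R, ∃ y ∈ P m, x = (1 + η) • y)

/-- Rotation by `φ` and reflection in the first axis. -/
noncomputable def rotA (φ : ℝ) (x : E2) : E2 :=
  !₂[Real.cos φ * x 0 - Real.sin φ * x 1, Real.sin φ * x 0 + Real.cos φ * x 1]
noncomputable def rfl2 (x : E2) : E2 := !₂[x 0, - x 1]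

/-- The crossing point of the axis and the bisector of direction `e θ`. -/
noncomputable def kap (α θ : ℝ) : ℝ := Real.sqrt (Real.cos α * Real.cos θ / Real.cos (α - θ))
noncomputable def x1 (α θ : ℝ) : ℝ := (kap α θ - Real.cos α) / (1 + kap α θ)
noncomputable def xi (α : ℝ) : ℝ := x1 α (α / 2) * Real.sin (α / 2)
noncomputable def y0 (α : ℝ) : ℝ :=
  (Real.cos α + xi α * Real.sin (α / 2)) / Real.cos (α / 2)
noncomputable def sg (m : ℕ) : ℝ := if m % 4 = 1 then 1 else -1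
noncomputable def ZZ (α θ : ℝ) : ℝ := 4 * (Real.cos α + xi α * Real.sin (α / 2)) ^ 2 /
  (Real.sqrt (Real.cos (α / 2 - θ)) + Real.sqrt (Real.cos (α / 2 + θ))) ^ 2

/-! ### Pieces -/

/-- PIECE BASIC (~120 lines). Spec by `H_exists` and `Classical.epsilon_spec`; uniqueness by
`H_strict` (both strict inequalities hold because `0 < M R / 2 < M R`); continuity: `exists_bis`
(with `a = e`) gives a continuous `c`, equal to `hh R` by uniqueness; `e (θ+π) = - e θ` and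
`split` (with `T = univ`) give `hh R (θ+π) = - hh R θ`; `G` continuous by `cont_quad`
(`App` is the measure of an intersection of two half planes); `G R (θ+π/2) = - G R θ` because
`App R (e (θ+π/2)) (-e θ) d (-c) = Amp R (e θ) (e (θ+π/2)) c d = M R / 2 - App ..` (`pieces`). -/
def P_BASIC : Prop := ∀ R : Set E2, Body R →
  (∀ θ, H R (e θ) (hh R θ) = M R / 2) ∧
  (∀ θ c, H R (e θ) c = M R / 2 → c = hh R θ) ∧
  Continuous (hh R) ∧ (∀ θ, hh R (θ + Real.pi) = - hh R θ) ∧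
  Continuous (G R) ∧ (∀ θ, G R (θ + Real.pi / 2) = - G R θ)

/-- PIECE BIJ (~150 lines). The map `θ ↦ {line P_θ (e θ), line P_θ (rot (e θ))}` (`P_θ` the common
point of the two bisectors, see `quadrisection_of` in Quad6 which gives a quadrisection when
`App = M R / 4`) is a bijection from the zeros of `G R` in `[a, a+π/2)` to the quadrisections.
Injective: equal pairs have equal directions modulo `π/2`.  Surjective: a quadrisection `(P, u)`;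
replacing `u` by `rot u` does not change the pair of lines (line P (-u) = line P u) nor the four
quadrants; so `u = r • e φ` with `r > 0`, `a ≤ φ < a + π/2` (angle of a complex number /
`Complex.arg`, then subtract a multiple of π/2); adding the areas of two adjacent quadrants
(`quad_iff`, `split`) gives `H R (e φ) (dot (e φ) P) = M R / 2` and the same for `φ+π/2`, so by
uniqueness these numbers are `hh R φ`, `hh R (φ+π/2)` and `G R φ = 0`. -/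
def P_BIJ : Prop := P_BASIC → ∀ R : Set E2, Body R → ∀ a : ℝ,
  {q | IsQuadrisection R q}.encard =
    {θ : ℝ | a ≤ θ ∧ θ < a + Real.pi / 2 ∧ G R θ = 0}.encard

/-- PIECE SIM (~150 lines). `f` is `x ↦ r • L x + b` with `L` a linear isometry equivalence
(`Isometry` in a strictly convex space is affine; dimension finite), `f` maps lines to lines,
quadrants to quadrants (`L (rot u) = rot (L u)` or `- rot (L u)`), interiors to interiors, and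
multiplies areas by `r^2`.  Prove `≤` for every such `f` and apply it to the inverse map. -/
def P_SIM : Prop := ∀ (R : Set E2) (f : E2 → E2) (r : ℝ), 0 < r →
  (∀ x y, dist (f x) (f y) = r * dist x y) →
  {q | IsQuadrisection (f '' R) q}.encard = {q | IsQuadrisection R q}.encard

/-- PIECE HULL (~80 lines). `f` is affine (as in SIM) and a homeomorphism; `R` is compact convex
(hull of a finite set), so by Krein–Milman (`closure_convexHull_extremePoints`, and the set of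
extreme points is finite because it is contained in `V`) `R` is the hull of its extreme points. -/
def P_HULL : Prop := ∀ (m : ℕ) (R : Set E2) (f : E2 → E2) (r : ℝ) (v : Fin m → E2), IsGon m R →
  0 < r → (∀ x y, dist (f x) (f y) = r * dist x y) → range v = f '' (R.extremePoints ℝ) →
  f '' R = convexHull ℝ (range v) ∧ Body (f '' R)

/-- PIECE REG (~200 lines). Facts on the regular polygon: convex body; contains a disc about 0
(radius `cos α`: every point lies in one of the sectors below); contained in the unit disc;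
half planes of the edges (`convexHull_min`; `cos ((2k+1-2j) α) ≤ cos α`); triangle
`0, w_k, w_{k+1}` (`tri_iff` with `orient 0 w_k w_{k+1} = sin 2α > 0`, and
`orient w_k w_{k+1} x = 2 sin α (cos α - dot (e ((2k+1) α)) x)`); symmetries. -/
def P_REG : Prop := ∀ m : ℕ, 3 ≤ m →
  Body (P m) ∧
  (∃ ρ : ℝ, 0 < ρ ∧ ∀ x : E2, ‖x‖ ≤ ρ → x ∈ P m) ∧ (∀ x ∈ P m, ‖x‖ ≤ 1) ∧
  (∀ k : ℤ, ∀ x ∈ P m, dot (e ((2 * k + 1) * al m)) x ≤ Real.cos (al m)) ∧
  (∀ k : ℤ, ∀ x : E2, 0 ≤ cr (e (2 * k * al m)) x → 0 ≤ cr x (e ((2 * k + 2) * al m)) →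
      dot (e ((2 * k + 1) * al m)) x ≤ Real.cos (al m) → x ∈ P m) ∧
  rotA (2 * al m) '' (P m) = P m ∧ rfl2 '' (P m) = P m

/-- PIECE NB (~80 lines). Vertices close to those of the regular polygon: `v_k = w_k + u` with
`‖u‖ < ε = η ρ`, `u ∈ η • P` (disc of radius ρ in P), so `v_k ∈ (1+η) P` (convex); conversely if
`x ∈ (1-η) P` is not in the hull of the `v_k`, separate: a linear `f` with
`f x > f v_k` for all `k`, so `f x > max f w_k - ε ‖f‖ ≥ sup_P f - η ρ ‖f‖` and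
`f x ≤ (1-η) sup_P f`, `sup_P f ≥ ρ ‖f‖`: contradiction.  (`w m` has the same range on `Fin m` and
on `ℤ`.) -/
def P_NB : Prop := P_REG → ∀ m : ℕ, 3 ≤ m → ∀ η : ℝ, 0 < η → η < 1 → ∃ ε : ℝ, 0 < ε ∧
  ∀ v : Fin m → E2, (∀ k : Fin m, dist (v k) (w m ((k : ℕ) : ℤ)) < ε) →
    Near m η (convexHull ℝ (range v))

/-- PIECE SYMG (~120 lines). Rotations and the reflection are linear isometries (measure
preserving): `rotA φ (e θ) = e (θ+φ)`, `rfl2 (e θ) = e (-θ)`, `dot (g a) (g x) = dot a x`; so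
`H (g '' R) (g a) c = H R a c`, `App` likewise; the values of `hh` by uniqueness.  Reflection:
`G (rfl2 '' R) (-θ)` is `App R (e θ) (e (θ - π/2)) (hh θ) (hh (θ-π/2)) - M/4`
`= Apm R (e θ) (e (θ+π/2)) .. - M/4 = - G R θ`. -/
def P_SYMG : Prop := P_BASIC → ∀ R : Set E2, Body R →
  (∀ φ, Body (rotA φ '' R)) ∧ Body (rfl2 '' R) ∧
  (∀ φ θ, hh (rotA φ '' R) (θ + φ) = hh R θ ∧ G (rotA φ '' R) (θ + φ) = G R θ) ∧
  (∀ θ, hh (rfl2 '' R) (-θ) = hh R θ ∧ G (rfl2 '' R) (-θ) = - G R θ)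

/-- PIECE PSYM (~70 lines). From SYMG and REG: `hh P (θ+2α) = hh P θ`, `G P (θ+2α) = G P θ`,
`hh P (θ+π) = - hh P θ`, `G P (θ+π/2) = - G P θ`, with `π = m α` and `m = 4i+1` or `4i+3`. -/
def P_PSYM : Prop := P_BASIC → P_REG → P_SYMG → ∀ m : ℕ, 3 ≤ m → m % 2 = 1 → ∀ θ : ℝ,
  hh (P m) (-θ) = hh (P m) θ ∧ hh (P m) (θ + al m) = - hh (P m) θ ∧
  G (P m) (-θ) = - G (P m) θ ∧ G (P m) (θ + al m / 2) = - G (P m) θ

/-- PIECE CN (~120 lines, both P_CNU and P_CNL).  The cone at `X` spanned by `u, v`, cut by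
`dot n p ≤ c`, is the triangle `X, X + (D/λ) u, X + (D/μ) v` (`D = c - dot n X`, `λ = dot n u`,
`μ = dot n v`), of area `D² cr u v / (2 λ μ)` (`tri_iff`, `tri_vol_pos`), empty for `D < 0`.
Lower bound: the triangle is in `R` by convexity, and its open part (three strict inequalities)
has the same area (`null_level`/`line_null`). For `D = 0` trivial. -/
def P_CNU : Prop := ∀ R : Set E2, Body R → ∀ (S : Set E2) (X u v n : E2) (c : ℝ),
  0 < cr u v → 0 < dot n u → 0 < dot n v →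
  (∀ p ∈ S, p ∈ R → 0 ≤ cr u (p - X) ∧ 0 ≤ cr (p - X) v ∧ dot n p ≤ c) →
  (mu R).real S ≤ (max 0 (c - dot n X)) ^ 2 * cr u v / (2 * dot n u * dot n v)
def P_CNL : Prop := ∀ R : Set E2, Body R → ∀ (S : Set E2) (X u v n : E2) (c : ℝ),
  0 < cr u v → 0 < dot n u → 0 < dot n v → 0 ≤ c - dot n X →
  X ∈ R → X + ((c - dot n X) / dot n u) • u ∈ R → X + ((c - dot n X) / dot n v) • v ∈ R →
  (∀ p, 0 < cr u (p - X) → 0 < cr (p - X) v → dot n p < c → p ∈ S) →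
  (c - dot n X) ^ 2 * cr u v / (2 * dot n u * dot n v) ≤ (mu R).real S

/-- PIECE T1 (~120 lines). `κ = kap α θ`, `κ² = 1/(1 + tan α tan θ)`, so `cos α < κ ≤ 1` (for
`θ ≤ α/2`: `κ² ≥ cos α > cos² α`, as `tan α tan (α/2) = (1 - cos α)/cos α`);
`cos α + x1 = κ (1 + cos α)/(1+κ)`, `1 - x1 = (1 + cos α)/(1+κ)`; `x1 ≤ (1-cos α)/2` since `κ ≤ 1`;
`(cos α + x1) tan θ ≤ tan (α/2) (1+cos α)/2 ≤ sin α`.  `kap α (α/2) = √(cos α)`, so
`x1 α (α/2) = (√c - c)/(1+√c) = √c (1-c)/(1+√c)² ≤ (1-c)/4`, and `x1 α θ` is decreasing in `θ`, so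
`xi α = x1 α (α/2) sin (α/2) < x1 α (α/2) ≤ x1 α θ`. -/
def P_T1 : Prop := ∀ α : ℝ, 0 < α → α ≤ Real.pi / 5 →
  (∀ θ, 0 ≤ θ → θ ≤ α / 2 → 0 < x1 α θ ∧ x1 α θ ≤ (1 - Real.cos α) / 2 ∧
    (Real.cos α + x1 α θ) * Real.tan θ ≤ Real.sin α ∧
    Real.cos α * (1 - x1 α θ) ^ 2 / Real.cos (α - θ) = (Real.cos α + x1 α θ) ^ 2 / Real.cos θ ∧
    xi α < x1 α θ) ∧
  0 < xi α ∧ xi α ≤ (1 - Real.cos α) / 4 * Real.sin (α / 2)

/-- PIECE T2 (~100 lines, both inequalities). Put `u = tan² (α/2) = (1-c)/(1+c) ≤ 0.106`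
(`cos (π/5) = (1+√5)/4`), `(1+c)/2 = 1/(1+u)`, `(1-c)/2 = u/(1+u)`, `cos²(α/2) = 1/(1+u)`,
`sin²(α/2) = u/(1+u)`.  From T1: `xi sin(α/2) ≤ u²/(2(1+u)²)`, so
`cos α + xi sin(α/2) ≤ (1-u²/2)/(1+u)²`, `y0² ≤ (1-u²/2)²/(1+u)³`,
`(1-c)/2 + xi ≤ u/(1+u) (1 + s/2)` with `s = sin(α/2) ≤ 0.31`.  LUINEQ reduces to
`(1-u²/2)²/(1+u) + 1.34 u² < 1`.
NEGINEQ: `(cos α + x1 α θ)² = ((1+c) κ/(1+κ))²` with `κ = (1+t)^(-1/2)`, `t = tan α tan θ`,
`2κ/(1+κ) = 2/(1+√(1+t)) ≥ 1/(1+t/4)`, `tan θ ≤ tan (α/4) ≤ tan(α/2)/2`, so `t ≤ u/(1-u)`;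
`ZZ α θ * cos θ / cos(α/2) = 2 (c + xi s)²/(cos²(α/2) (1 + √(1 - tan²(α/2) tan² θ)))`
`≤ (c + xi s)² (1+u)/(1 - u tan²θ/2)`, `tan² θ ≤ u/4`; and it reduces to
`(1-u²/2)²/((1+u)(1-u²/8)) + 1.34 u² < (4(1-u)/(4-3u))²` for `0 < u ≤ 0.106`
(values at 0.106: 0.911 < 0.943). -/
def P_T2 : Prop := P_T1 → ∀ α : ℝ, 0 < α → α ≤ Real.pi / 5 →
  (y0 α ^ 2 + ((1 - Real.cos α) / 2 + xi α) ^ 2 < ((1 + Real.cos α) / 2) ^ 2) ∧
  (∀ θ, 0 < θ → θ ≤ α / 4 →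
    ZZ α θ * Real.cos θ / Real.cos (α / 2) + (x1 α θ + xi α) ^ 2 < (Real.cos α + x1 α θ) ^ 2)

/-- PIECE BIS (~200 lines). Let `V0 = {0 ≤ p 1}`, `V' = {h ≤ dot (e (θ+π/2)) p}` with
`h = - x1 sin θ` (the half plane above the line of direction `e θ` through `X = (x1, 0)`).
`(mu P).real V0 = M/2` (reflection: `hh P (π/2) = 0` by PSYM: `hh (π/2) = hh (-π/2) = - hh (π/2)`).
`V0 \ V'` is the cone at `X` spanned by `e 0, e θ`, cut (`n = e α`, `c = cos α`) to the triangle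
`X, (1,0), X + (cos α (1-x1)/cos (α-θ)) e θ`, whose vertices are in `P` (REG with k = 0); its area
is `cos α (1-x1)² sin θ/(2 cos (α-θ))`.  `V' \ V0` is the cone at `X` spanned by `-e 0, -e θ`, cut
(`n = -e 0 = e (mα)`, edge `k = (m-1)/2`) to the triangle `X, (-cos α, 0),
(-cos α, -(cos α + x1) tan θ)` in `P`; area `(cos α + x1)² tan θ/2`.  Equal by T1.  Use P_CNU and
P_CNL for both (exact values), then `(mu P).real V' = M/2` and uniqueness in BASIC. -/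
def P_BIS : Prop := P_CNU → P_CNL → P_BASIC → P_REG → P_SYMG → P_PSYM → P_T1 →
  ∀ m : ℕ, 5 ≤ m → m % 2 = 1 → ∀ θ : ℝ, 0 < θ → θ ≤ al m / 2 →
  hh (P m) (θ + Real.pi / 2) = - (x1 (al m) θ * Real.sin θ) ∧
  (mu (P m)).real ({p | 0 ≤ p 1} \ {p | -(x1 (al m) θ * Real.sin θ) ≤
      dot (e (θ + Real.pi / 2)) p}) = (Real.cos (al m) + x1 (al m) θ) ^ 2 * Real.tan θ / 2

/-- PIECE TOP (~120 lines). `hh P 0 = ± xi` from BIS at `θ = α/2` and PSYM (`π/2 = mα/2`,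
`m = 4i+1`: `hh (φ+π/2) = hh (φ + α/2)`, at `φ = -α/2`: `hh 0 = hh (π/2-α/2) = hh (-π/2+α/2)
= - hh (π/2+α/2) = xi`; `m = 4i+3`: `hh (φ+π/2) = - hh (φ+α/2)`, `hh 0 = - xi`).
`hh P (π/2) = 0` by symmetry.  Top edge: normal angle `(2 (m/4) + 1) α = π/2 + sg m α/2`
(`m/4` natural division), i.e. normal `(-sg sin(α/2), cos(α/2))`, bottom edge by reflection;
`(sg xi, ± y0)` are on these edges: REG with `k = m/4` (the two `cr` conditions follow from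
`y0 sin(α/2) ≥ xi cos(α/2)`, `0 < xi`, `0 < y0`). -/
def P_TOP : Prop := P_CNU → P_CNL → P_BASIC → P_REG → P_SYMG → P_PSYM → P_T1 → P_BIS →
  ∀ m : ℕ, 5 ≤ m → m % 2 = 1 →
  hh (P m) 0 = sg m * xi (al m) ∧ hh (P m) (Real.pi / 2) = 0 ∧
  (∀ x ∈ P m, |x 1| * Real.cos (al m / 2) ≤
    Real.cos (al m) + sg m * Real.sin (al m / 2) * x 0) ∧
  (!₂[sg m * xi (al m), y0 (al m)] : E2) ∈ P m ∧ (!₂[sg m * xi (al m), - y0 (al m)] : E2) ∈ P m

/-- PIECE NEGT (~150 lines). `T = U' \ U0` and `B = U0 \ U'` have the same area (both half planes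
bisect).  The two lines cross at `X2 = (x0, Y2)`, `x0 = sg xi`, `Y2 = (hh θ - x0 cos θ)/sin θ`.
`T` is in the cone at `X2` spanned by `e (π/2)`, `e (θ+π/2)` and below the top edge
(`n = e (π/2 + sg α/2) = (-sg sin(α/2), cos(α/2))`): by P_CNU
`|T| ≤ D₊² sin θ/(2 cos(α/2) cos(sg α/2 - θ))`, `D = cos α - dot n X2`; `B` is in the cone spanned
by `-e (π/2)`, `-e (θ+π/2)`, above the bottom edge (`n_B = (-sg sin(α/2), -cos(α/2))`):
`|B| ≤ D_B₊² sin θ/(2 cos(α/2) cos(sg α/2 + θ))`.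
`D + D_B = 2 (cos α + xi sin(α/2))`, so one of `D ≤ √Z √cos(sg α/2-θ)`, `D_B ≤ √Z √cos(sg α/2+θ)`
holds (`√Z = 2 (cos α + xi sin (α/2))/(√cos(α/2-θ) + √cos(α/2+θ))`), and `|T| = |B|`. -/
def P_NEGT : Prop := P_CNU → ∀ m : ℕ, 5 ≤ m → m % 2 = 1 → P_BASIC → P_REG → P_T1 →
  (hh (P m) 0 = sg m * xi (al m)) →
  (∀ x ∈ P m, |x 1| * Real.cos (al m / 2) ≤
    Real.cos (al m) + sg m * Real.sin (al m / 2) * x 0) →
  ∀ θ : ℝ, 0 < θ → θ ≤ al m / 4 →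
  (mu (P m)).real ({p | hh (P m) θ ≤ dot (e θ) p} \ {p | sg m * xi (al m) ≤ p 0}) ≤
    ZZ (al m) θ * Real.sin θ / (2 * Real.cos (al m / 2))

/-- PIECE DEC (~30 lines). Set algebra: `U'∩V' ⊆ (U∩V') ∪ (U' \ U)`, and `U∩V'` is the disjoint
union of `(U∩V) \ (V \ V')` and `(V' \ V) ∩ U`. -/
def P_DEC : Prop := ∀ R : Set E2, Body R → ∀ U U' V V' : Set E2, MeasurableSet U →
  MeasurableSet U' → MeasurableSet V → MeasurableSet V' →
  (mu R).real (U' ∩ V') ≤ (mu R).real (U ∩ V) + (mu R).real (U' \ U) +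
    (mu R).real ((V' \ V) ∩ U) - (mu R).real ((V \ V') ∩ U)

/-- PIECE NEG (~120 lines). `U0 = {x0 ≤ p 0}`, `V0 = {0 ≤ p 1}` (the bisectors at angle 0),
`U', V'` the bisecting half planes at `θ`; `G P 0 = 0` (odd), so `App` at 0 is `M/4`.  DEC:
`App θ ≤ M/4 + |U' \ U0| + |(V' \ V0) ∩ U0| - |(V0 \ V') ∩ U0|`; NEGT for the first;
`(V' \ V0) ∩ U0` is in the triangle (x0 ≤ p 0 ≤ x1, between the lines; P_CNU with `n = -e 0`,
`c = -x0`) of area `(x1-x0)² tan θ/2`; `V0 \ V'` is in `p 0 ≥ x1 > x0`, so the last one is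
`(cos α + x1)² tan θ/2` (BIS); conclude with T2 and `|x0| = xi`. -/
def P_NEG : Prop := P_CNU → P_DEC → P_BASIC → P_T1 → P_T2 → ∀ m : ℕ, 5 ≤ m → m % 2 = 1 →
  Body (P m) → (G (P m) 0 = 0) →
  (hh (P m) 0 = sg m * xi (al m)) → (hh (P m) (Real.pi / 2) = 0) →
  (∀ θ : ℝ, 0 < θ → θ ≤ al m / 4 →
    (mu (P m)).real ({p | hh (P m) θ ≤ dot (e θ) p} \ {p | sg m * xi (al m) ≤ p 0}) ≤
      ZZ (al m) θ * Real.sin θ / (2 * Real.cos (al m / 2))) →
  (∀ θ : ℝ, 0 < θ → θ ≤ al m / 2 →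
    hh (P m) (θ + Real.pi / 2) = - (x1 (al m) θ * Real.sin θ) ∧
    (mu (P m)).real ({p | 0 ≤ p 1} \ {p | -(x1 (al m) θ * Real.sin θ) ≤
        dot (e (θ + Real.pi / 2)) p}) = (Real.cos (al m) + x1 (al m) θ) ^ 2 * Real.tan θ / 2) →
  ∀ θ : ℝ, 0 < θ → θ ≤ al m / 4 → G (P m) θ < 0

/-- PIECE WV (~250 lines). Coordinates `x = dot (e φ) p`, `y = dot (e (φ+π/2)) p`;
`dot (e (φ+θ+π/2)) p = - x sin θ + y cos θ`, so `V = {y ≥ x tan θ + k}`, `k = h/cos θ`, same for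
`V'`.  The lines cross at `x = X1`.  In `R` the set `V \ V'` (in `x > X1`) and `V' \ V`
(in `x < X1`) have the same area (both half planes bisect) and lie in the band
`|y - yc| ≤ ρ` (between the two lines, `|x| ≤ L`), hence in `-xl-τ ≤ x ≤ xr+τ`.  P_CNU (cones
spanned by `e (φ+θ), e (φ+θ')`, `n = e φ`, resp. the opposite cone, `n = -e φ`):
`|V\V'| ≤ (xr+τ-X1)₊² Δ/2`, `|V'\V| ≤ (X1+xl+τ)₊² Δ/2`, `Δ = tan θ' - tan θ
= sin (θ'-θ)/(cos θ cos θ')`.  Lower bounds by P_CNL: if `-xl+τ ≤ X1 ≤ xr-τ` then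
`|V\V'| ≥ (xr-τ-X1)² Δ/2`, `|V'\V| ≥ (X1+xl-τ)² Δ/2`.  If `X1 < -xl+τ`: the triangle with apex on
the line `V` at `x = -xl+τ` and the two slopes is in `V \ V'` and in `R`, so
`(xl+xr-2τ)² Δ/2 ≤ |V\V'| = |V'\V| ≤ (2τ)² Δ/2`, contradiction with `4τ < xl+xr`; same for
`X1 > xr-τ`.  Hence `|X1 - (xr-xl)/2| ≤ τ`, and the three conclusions. -/
def P_WV : Prop := P_CNU → P_CNL → ∀ R : Set E2, Body R →
  ∀ φ θ θ' h h' yc xl xr τ ρ L : ℝ,
  -(Real.pi / 2) < θ → θ < θ' → θ' < Real.pi / 2 → 0 < τ → 4 * τ < xl + xr →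
  xl + τ ≤ L → xr + τ ≤ L →
  (∀ p ∈ R, |dot (e φ) p| ≤ L) →
  (∀ p ∈ R, |dot (e (φ + Real.pi / 2)) p - yc| ≤ ρ →
    -xl - τ ≤ dot (e φ) p ∧ dot (e φ) p ≤ xr + τ) →
  (∀ p : E2, |dot (e (φ + Real.pi / 2)) p - yc| ≤ ρ → -xl + τ ≤ dot (e φ) p →
    dot (e φ) p ≤ xr - τ → p ∈ R) →
  (∀ x : ℝ, |x| ≤ L → |x * Real.tan θ + h / Real.cos θ - yc| ≤ ρ ∧
    |x * Real.tan θ' + h' / Real.cos θ' - yc| ≤ ρ) →
  H R (e (φ + θ + Real.pi / 2)) h = M R / 2 → H R (e (φ + θ' + Real.pi / 2)) h' = M R / 2 →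
  (mu R).real ({p | h' ≤ dot (e (φ + θ' + Real.pi / 2)) p} \
      {p | h ≤ dot (e (φ + θ + Real.pi / 2)) p}) ≤
    ((xl + xr) / 2 + 2 * τ) ^ 2 * (Real.tan θ' - Real.tan θ) / 2 ∧
  (∀ s : ℝ, s ≤ (xr - xl) / 2 - τ →
    ((xl + xr) / 2 - 2 * τ) ^ 2 * (Real.tan θ' - Real.tan θ) / 2 ≤
    (mu R).real (({p | h ≤ dot (e (φ + θ + Real.pi / 2)) p} \
      {p | h' ≤ dot (e (φ + θ' + Real.pi / 2)) p}) ∩ {p | s ≤ dot (e φ) p})) ∧
  (∀ s : ℝ, s ≤ (xr - xl) / 2 - τ →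
    (mu R).real (({p | h' ≤ dot (e (φ + θ' + Real.pi / 2)) p} \
      {p | h ≤ dot (e (φ + θ + Real.pi / 2)) p}) ∩ {p | s ≤ dot (e φ) p}) ≤
    ((xr - xl) / 2 + τ - s) ^ 2 * (Real.tan θ' - Real.tan θ) / 2)

/-- PIECE BAND (~200 lines). The boundary of bodies near `P` close to the two axes of the
quadrisection at angle 0.  Upper bounds: half planes of the edges with normals `e 0·(-1)`
(`k = (m-1)/2`: `- x 0 ≤ cos α`), unit disc (`x 0 ≤ 1`), and the hypothesis on `|x 1|`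
(continuity in `x 0`, at `x 0 = x0` the bound is `y0`), scaled by `1+η`.  Inner part: the compact
segment from `(-cos α+τ/2, 0)` to `(1-τ/2, 0)` is in the interior of `P` (open segments from the
interior point 0 to the points `(-cos α, 0)`, `(1,0)` of `P`), so a neighbourhood of it is in `P`,
also after scaling by `1/(1-η)` with `η` small; same for the segment from `(x0, -y0+τ/2)` to
`(x0, y0-τ/2)` (the end points `(x0, ± y0)` are in `P` and `(x0, 0)` is an interior point). -/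
def P_BAND : Prop := P_REG → P_T1 → ∀ m : ℕ, 5 ≤ m → m % 2 = 1 →
  (∀ x ∈ P m, |x 1| * Real.cos (al m / 2) ≤
    Real.cos (al m) + sg m * Real.sin (al m / 2) * x 0) →
  (!₂[sg m * xi (al m), y0 (al m)] : E2) ∈ P m →
  (!₂[sg m * xi (al m), - y0 (al m)] : E2) ∈ P m →
  ∀ τ : ℝ, 0 < τ → ∃ ρ η0 : ℝ, 0 < ρ ∧ 0 < η0 ∧ η0 < 1 ∧
  ∀ η : ℝ, 0 ≤ η → η ≤ η0 → ∀ R : Set E2, Body R → Near m η R →
  (∀ p ∈ R, ‖p‖ ≤ 2) ∧
  (∀ p ∈ R, |p 1| ≤ ρ → -Real.cos (al m) - τ ≤ p 0 ∧ p 0 ≤ 1 + τ) ∧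
  (∀ p : E2, |p 1| ≤ ρ → -Real.cos (al m) + τ ≤ p 0 → p 0 ≤ 1 - τ → p ∈ R) ∧
  (∀ p ∈ R, |p 0 - sg m * xi (al m)| ≤ ρ → |p 1| ≤ y0 (al m) + τ) ∧
  (∀ p : E2, |p 0 - sg m * xi (al m)| ≤ ρ → |p 1| ≤ y0 (al m) - τ → p ∈ R)

/-- PIECE UC (~200 lines). `|(mu R).real S - (mu P).real S| ≤ area (R Δ P) ≤ 4 η area P =: d`
for all (measurable) `S`, `|M R - M P| ≤ d` (area of `(1±η) P` is `(1±η)² area P`).  `hh`: for
every `σ > 0` the continuous functions `θ ↦ H P (e θ) (hh P θ ∓ σ)` differ from `M P / 2` by at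
least `s > 0` (`H_strict`; compactness of `[0, 2π]` and `2π`-periodicity of `hh P` and `e`), so for
`3 d < s` we get `|hh R θ - hh P θ| < σ`.  Quadrants: the quadrants of `R` and `P` differ, up to
`d`, by two strips of width `σ` of `P`, of area `≤ 2·2·σ` each (or: modulus of continuity of
`(c, d) ↦ App P (e θ) (e (θ+π/2)) c d`, uniform in `θ` by compactness). -/
def P_UC : Prop := P_BASIC → P_REG → ∀ m : ℕ, 3 ≤ m → ∀ μ : ℝ, 0 < μ →
  ∃ η0 : ℝ, 0 < η0 ∧ η0 < 1 ∧ ∀ η : ℝ, 0 ≤ η → η ≤ η0 → ∀ R : Set E2, Body R → Near m η R →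
  ∀ θ : ℝ, |hh R θ - hh (P m) θ| < μ ∧ |G R θ - G (P m) θ| < μ

/-- PIECE LU (~200 lines). Let `x0 = sg xi`, `c = cos α`.  By T2 choose `τ > 0` with
`(y0+2τ)² + ((1-c)/2 + 2τ - x0)² < ((1+c)/2-2τ)²` and the side conditions of WV
(`4τ < 1+c`, `4τ < 2 y0`, `x0 + τ ≤ (1-c)/2 - τ` (T1: `xi < x1 α (α/2) ≤ ..`: note
`xi ≤ (1-c)/4 sin(α/2) < (1-c)/2`)).  Take `ρ, η0` from BAND for `τ`; `L = 4`.  By UC and the
continuity of `hh P` at `0` and `π/2` choose `δ, η0` such that for `|θ| ≤ δ` the lines of the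
bisectors `U_θ = {hh R θ ≤ dot (e θ) p}`, `V_θ = {hh R (θ+π/2) ≤ dot (e (θ+π/2)) p}` stay in the
bands (`|x tan θ + hh R (θ+π/2)/cos θ| ≤ ρ` for `|x| ≤ L`;
`|x tan θ + hh R θ/cos θ - x0| ≤ min ρ τ` for `|x| ≤ L`).
For `-δ ≤ θ < θ' ≤ δ`, DEC with `U = U_θ`, `V = V_θ`, `U' = U_θ'`, `V' = V_θ'`:
`|U' \ U|` by WV(1) with `φ = -π/2`, `yc = x0`, `xl = xr = y0` (`e (φ+θ+π/2) = e θ`,
`dot (e (-π/2)) p = - p 1`, `dot (e 0) p = p 0`);
in `R`, `(V' \ V) ∩ U ⊆ {x0 - τ ≤ p 0}` and `(V \ V') ∩ {x0 + τ ≤ p 0} ⊆ U` (a point of `R` with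
`|p 1| ≤ L` is in `U` if `p 0 ≥ x0 + τ` and not in `U` if `p 0 < x0 - τ`), so WV(3) with `φ = 0`,
`s = x0 - τ` and WV(2) with `s = x0 + τ` (`yc = 0`, `xl = c`, `xr = 1`).  The sum is negative. -/
def P_LU : Prop := P_CNU → P_CNL → P_WV → P_DEC → P_UC → P_BASIC → P_REG → P_T1 → P_T2 →
  ∀ m : ℕ, 5 ≤ m → m % 2 = 1 →
  hh (P m) 0 = sg m * xi (al m) → hh (P m) (Real.pi / 2) = 0 →
  (∀ τ : ℝ, 0 < τ → ∃ ρ η0 : ℝ, 0 < ρ ∧ 0 < η0 ∧ η0 < 1 ∧
    ∀ η : ℝ, 0 ≤ η → η ≤ η0 → ∀ R : Set E2, Body R → Near m η R →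
    (∀ p ∈ R, ‖p‖ ≤ 2) ∧
    (∀ p ∈ R, |p 1| ≤ ρ → -Real.cos (al m) - τ ≤ p 0 ∧ p 0 ≤ 1 + τ) ∧
    (∀ p : E2, |p 1| ≤ ρ → -Real.cos (al m) + τ ≤ p 0 → p 0 ≤ 1 - τ → p ∈ R) ∧
    (∀ p ∈ R, |p 0 - sg m * xi (al m)| ≤ ρ → |p 1| ≤ y0 (al m) + τ) ∧
    (∀ p : E2, |p 0 - sg m * xi (al m)| ≤ ρ → |p 1| ≤ y0 (al m) - τ → p ∈ R)) →
  ∃ η0 δ : ℝ, 0 < η0 ∧ η0 < 1 ∧ 0 < δ ∧ ∀ η : ℝ, 0 ≤ η → η ≤ η0 → ∀ R : Set E2, Body R →
    Near m η R → StrictAntiOn (G R) (Icc (-δ) δ)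

/-- PIECE LUALL (~80 lines). `Near` is invariant under the rotation by `2α` and
`G (rotA (2α) '' R) (θ+2α) = G R θ` (SYMG), `G R (θ+π/2) = - G R θ`; every `j α/2` is
`2α a + (π/2) b` with integers `a, b` (`j = 4a + m b`, `m` odd, `π/2 = m α/2`). -/
def P_LUALL : Prop := P_BASIC → P_REG → P_SYMG → ∀ m : ℕ, 3 ≤ m → m % 2 = 1 → ∀ η δ : ℝ,
  (∀ R : Set E2, Body R → Near m η R → InjOn (G R) (Icc (-δ) δ)) →
  ∀ R : Set E2, Body R → Near m η R → ∀ j : ℤ,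
    InjOn (G R) (Icc (j * (al m / 2) - δ) (j * (al m / 2) + δ))

/-- PIECE COUNT (~120 lines). `G0 (θ + j s) = (-1)^j G0 θ`; a zero of `G1` is within `δ` of some
`j s` (else `|G0| ≥ μ` there); for each `j` exactly one zero in `[js-δ, js+δ]`: existence by the
intermediate value theorem (at the end points `G0` is `≥ μ` resp. `≤ -μ`, opposite signs),
uniqueness by `InjOn`; those with `-s/2 ≤ θ < -s/2 + m s` are those with `0 ≤ j < m`. -/
def P_COUNT : Prop := ∀ (m : ℕ) (s δ μ : ℝ) (G0 G1 : ℝ → ℝ), 0 < s → 0 < δ → δ < s / 2 → 0 < μ →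
  Continuous G1 → (∀ θ, G0 (θ + s) = - G0 θ) → (∀ θ, δ ≤ θ → θ ≤ s - δ → G0 θ ≤ -μ) →
  (∀ θ, |G1 θ - G0 θ| < μ) → (∀ j : ℤ, InjOn G1 (Icc (j * s - δ) (j * s + δ))) →
  {θ : ℝ | -(s / 2) ≤ θ ∧ θ < -(s / 2) + m * s ∧ G1 θ = 0}.encard = m

end Pool.Agent.W2helper5.QD
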